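import Pool.Agent.LWC.W2

set_option autoImplicit false

/-!
# Data layer 1: paths and cycles inside a set through prescribed edges
-/

namespace Pool.Agent.LWF

open SimpleGraph Classical Pool.Agent.LWC

universe w

variable {V : Type w} {G H : SimpleGraph V}

/-- a path from `a` to `b` with all vertices in `S` through the edges of `E` -/
def PathIn (H : SimpleGraph V) (a b : V) (S : Set V) (E : Set (Sym2 V)) : Prop :=
  ∃ p : H.Walk a b, p.IsPath ∧ (∀ v ∈ p.support, v ∈ S) ∧ ∀ e ∈ E, e ∈ p.edges

/-- a cycle with all vertices in `S` through the edges of `E` -/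
def CycIn (H : SimpleGraph V) (S : Set V) (E : Set (Sym2 V)) : Prop :=
  ∃ (u : V) (p : H.Walk u u), p.IsCycle ∧ (∀ v ∈ p.support, v ∈ S) ∧ ∀ e ∈ E, e ∈ p.edges

theorem CycIn.hasCyc {S : Set V} {E : Set (Sym2 V)} (h : CycIn G S E) {L : Finset (Sym2 V)}
    (hL : ∀ e ∈ L, e ∈ E) : HasCyc G L := by
  obtain ⟨u, p, h1, -, h3⟩ := h
  exact ⟨u, p, h1, fun e he => h3 e (hL e he)⟩

theorem HasCyc.cycIn {L : Finset (Sym2 V)} (h : HasCyc G L) : CycIn G Set.univ (L : Set (Sym2 V)) := by
  obtain ⟨u, p, h1, h2⟩ := h
  exact ⟨u, p, h1, fun v _ => Set.mem_univ v, fun e he => h2 e he⟩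

theorem PathIn.mono {a b : V} {S S' : Set V} {E E' : Set (Sym2 V)} (h : PathIn H a b S E)
    (hS : S ⊆ S') (hE : E' ⊆ E) : PathIn H a b S' E' := by
  obtain ⟨p, h1, h2, h3⟩ := h
  exact ⟨p, h1, fun v hv => hS (h2 v hv), fun e he => h3 e (hE he)⟩

theorem CycIn.mono {S S' : Set V} {E E' : Set (Sym2 V)} (h : CycIn H S E)
    (hS : S ⊆ S') (hE : E' ⊆ E) : CycIn H S' E' := by
  obtain ⟨u, p, h1, h2, h3⟩ := h
  exact ⟨u, p, h1, fun v hv => hS (h2 v hv), fun e he => h3 e (hE he)⟩

/-- only the edges which occur matter -/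
theorem PathIn.transfer {a b : V} {S : Set V} {E : Set (Sym2 V)}
    (h : ∃ p : H.Walk a b, p.IsPath ∧ (∀ v ∈ p.support, v ∈ S) ∧ (∀ e ∈ E, e ∈ p.edges) ∧
      ∀ e ∈ p.edges, e ∈ G.edgeSet) : PathIn G a b S E := by
  obtain ⟨p, h1, h2, h3, h4⟩ := h
  refine ⟨p.transfer G h4, h1.transfer h4, ?_, ?_⟩
  · intro v hv
    rw [Walk.support_transfer] at hv
    exact h2 v hv
  · intro e he
    rw [Walk.edges_transfer]
    exact h3 e he

theorem PathIn.mono_graph {a b : V} {S : Set V} {E : Set (Sym2 V)} (h : PathIn G a b S E)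
    (hGH : G ≤ H) : PathIn H a b S E := by
  obtain ⟨p, h1, h2, h3⟩ := h
  have h4 : ∀ e ∈ p.edges, e ∈ H.edgeSet := fun e he =>
    SimpleGraph.edgeSet_mono hGH (p.edges_subset_edgeSet he)
  exact PathIn.transfer ⟨p, h1, h2, h3, h4⟩

theorem CycIn.mono_graph {S : Set V} {E : Set (Sym2 V)} (h : CycIn G S E)
    (hGH : G ≤ H) : CycIn H S E := by
  obtain ⟨u, p, h1, h2, h3⟩ := h
  have h4 : ∀ e ∈ p.edges, e ∈ H.edgeSet := fun e he =>
    SimpleGraph.edgeSet_mono hGH (p.edges_subset_edgeSet he)
  refine ⟨u, p.transfer H h4, h1.transfer h4, ?_, ?_⟩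
  · intro v hv
    rw [Walk.support_transfer] at hv
    exact h2 v hv
  · intro e he
    rw [Walk.edges_transfer]
    exact h3 e he

theorem PathIn.refl (a : V) : PathIn H a a {a} ∅ :=
  ⟨.nil, Walk.IsPath.nil, by simp, by simp⟩

theorem PathIn.edge {a b : V} (h : H.Adj a b) : PathIn H a b {a, b} {s(a, b)} :=
  ⟨.cons h .nil, Walk.IsPath.nil.cons (by simpa using h.ne), by simp, by simp⟩

theorem PathIn.reverse {a b : V} {S : Set V} {E : Set (Sym2 V)} (h : PathIn H a b S E) :
    PathIn H b a S E := by
  obtain ⟨p, h1, h2, h3⟩ := h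
  refine ⟨p.reverse, h1.reverse, fun v hv => h2 v (by simpa using hv), fun e he => ?_⟩
  rw [Walk.edges_reverse, List.mem_reverse]
  exact h3 e he

theorem PathIn.left {a b : V} {S : Set V} {E : Set (Sym2 V)} (h : PathIn H a b S E) : a ∈ S := by
  obtain ⟨p, h1, h2, h3⟩ := h
  exact h2 a p.start_mem_support

theorem PathIn.right {a b : V} {S : Set V} {E : Set (Sym2 V)} (h : PathIn H a b S E) : b ∈ S := by
  obtain ⟨p, h1, h2, h3⟩ := h
  exact h2 b p.end_mem_support

/-- concatenation at a common vertex -/
theorem PathIn.append {a b c : V} {S S' : Set V} {E E' : Set (Sym2 V)} (h : PathIn H a b S E)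
    (h' : PathIn H b c S' E') (hd : ∀ v ∈ S, v ∈ S' → v = b) :
    PathIn H a c (S ∪ S') (E ∪ E') := by
  obtain ⟨p, h1, h2, h3⟩ := h
  obtain ⟨q, g1, g2, g3⟩ := h'
  refine ⟨p.append q, append_isPath h1 g1 fun v hv hv' => hd v (h2 v hv) (g2 v hv'), ?_, ?_⟩
  · intro v hv
    rcases (Walk.mem_support_append_iff _ _).1 hv with h | h
    · exact Or.inl (h2 v h)
    · exact Or.inr (g2 v h)
  · intro e he
    rw [Walk.edges_append, List.mem_append]
    rcases he with he | he
    · exact Or.inl (h3 e he)
    · exact Or.inr (g3 e he)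

/-- joining two disjoint paths by an edge -/
theorem PathIn.join {a b c d : V} {S S' : Set V} {E E' : Set (Sym2 V)} (h : PathIn H a b S E)
    (hbc : H.Adj b c) (h' : PathIn H c d S' E') (hd : ∀ v ∈ S, v ∉ S') :
    PathIn H a d (S ∪ S') (E ∪ E' ∪ {s(b, c)}) := by
  have h1 : PathIn H b d ({b, c} ∪ S') ({s(b, c)} ∪ E') := by
    obtain ⟨q, g1, g2, g3⟩ := h'
    refine ⟨.cons hbc q, g1.cons fun hh => hd b h.right (g2 b hh), ?_, ?_⟩
    · intro v hv
      rw [Walk.support_cons, List.mem_cons] at hv
      rcases hv with hv | hv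
      · exact Or.inl (Or.inl hv)
      · exact Or.inr (g2 v hv)
    · intro e he
      rw [Walk.edges_cons, List.mem_cons]
      rcases he with he | he
      · exact Or.inl he
      · exact Or.inr (g3 e he)
  have hc : c ∈ S' := h'.left
  refine (h.append h1 ?_).mono ?_ ?_
  · rintro v hv (hv' | hv')
    · rcases hv' with hv' | hv'
      · exact hv'
      · exact absurd hc (hv' ▸ hd v hv)
    · exact absurd hv' (hd v hv)
  · rintro v (hv | hv | hv)
    · exact Or.inl hv
    · rcases hv with hv | hv
      · exact Or.inl (hv ▸ h.right)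
      · exact Or.inr (hv ▸ hc)
    · exact Or.inr hv
  · rintro e ((he | he) | he)
    · exact Or.inl he
    · exact Or.inr (Or.inr he)
    · exact Or.inr (Or.inl he)

/-- closing a path by an edge -/
theorem PathIn.close {a b : V} {S : Set V} {E : Set (Sym2 V)} (h : PathIn H a b S E)
    (hba : H.Adj b a) (h2 : ∃ e ∈ E, e ≠ s(a, b)) : CycIn H S (E ∪ {s(a, b)}) := by
  obtain ⟨p, p1, p2, p3⟩ := h
  have hl : 2 ≤ p.length := by
    by_contra hlt
    obtain ⟨e, he, hne⟩ := h2
    have he' := p3 e he
    have hpos : p.length = 1 := by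
      have : 0 < p.length := by
        rw [← Walk.length_edges]
        exact List.length_pos_of_mem he'
      omega
    cases p with
    | nil => simp at hpos
    | @cons _ c _ hadj q =>
      rw [Walk.length_cons] at hpos
      have hq : q.length = 0 := by omega
      have hcb := Walk.eq_of_length_eq_zero hq
      subst hcb
      have := (Walk.length_eq_zero_iff.1 hq).eq_nil
      rw [this] at he'
      simp at he'
      exact hne he'
  refine ⟨b, .cons hba p, Pool.Agent.LWC.close p p1 hba hl, ?_, ?_⟩
  · intro v hv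
    rw [Walk.support_cons, List.mem_cons] at hv
    rcases hv with hv | hv
    · exact hv ▸ p2 b p.end_mem_support
    · exact p2 v hv
  · intro e he
    rw [Walk.edges_cons, List.mem_cons]
    rcases he with he | he
    · exact Or.inr (p3 e he)
    · left
      rw [he, Sym2.eq_swap]

/-- closing two paths with the same ends -/
theorem PathIn.close₂ {a b : V} {S S' : Set V} {E E' : Set (Sym2 V)} (h : PathIn H a b S E)
    (h' : PathIn H b a S' E') (hab : a ≠ b) (hd : ∀ v ∈ S, v ∈ S' → v = a ∨ v = b)
    (h2 : ∃ e ∈ E, e ≠ s(a, b)) : CycIn H (S ∪ S') (E ∪ E') := by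
  obtain ⟨q, q1, q2, q3⟩ := h'
  cases q with
  | nil => exact absurd rfl hab
  | @cons _ c _ hadj q =>
    have q1' := (Walk.cons_isPath_iff _ _).1 q1
    by_cases hca : c = a
    · subst hca
      have hnil : q = .nil := (Walk.isPath_iff_nil.1 q1'.1).eq_nil
      subst hnil
      refine (h.close hadj h2).mono (fun v hv => Or.inl hv) ?_
      rintro e (he | he)
      · exact Or.inl he
      · have := q3 e he
        simp at this
        right
        rw [this, Sym2.eq_swap]
        rfl
    · -- `a .. b`, `b c`, `c .. a`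
      have hq : PathIn H c a {v | v ∈ S' ∧ v ≠ b} {e | e ∈ E' ∧ e ≠ s(b, c)} := by
        refine ⟨q, q1'.1, ?_, ?_⟩
        · intro v hv
          exact ⟨q2 v (by rw [Walk.support_cons]; exact List.mem_cons_of_mem _ hv),
            fun hh => q1'.2 (hh ▸ hv)⟩
        · rintro e ⟨he, hne⟩
          have := q3 e he
          rw [Walk.edges_cons, List.mem_cons] at this
          exact this.resolve_left hne
      have hr : PathIn H c b (S' ∪ S) ({e | e ∈ E' ∧ e ≠ s(b, c)} ∪ E) := by
        refine (hq.append h ?_).mono ?_ le_rfl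
        · rintro v ⟨hv, hvb⟩ hv'
          rcases hd v hv' hv with h | h
          · exact h
          · exact absurd h hvb
        · rintro v (hv | hv)
          · exact Or.inl hv.1
          · exact Or.inr hv
      obtain ⟨e0, he0, hne0⟩ := h2
      have hcS : c ∈ S' := q2 c (by rw [Walk.support_cons]; exact List.mem_cons_of_mem _ q.start_mem_support)
      have hcb : c ≠ b := hadj.ne.symm
      obtain ⟨p, p1, p2, p3⟩ := h
      have h3 : ∃ e ∈ ({e | e ∈ E' ∧ e ≠ s(b, c)} ∪ E : Set (Sym2 V)), e ≠ s(c, b) := by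
        refine ⟨e0, Or.inr he0, ?_⟩
        intro hh
        have h4 := p.fst_mem_support_of_mem_edges (hh ▸ p3 e0 he0 : s(c, b) ∈ p.edges)
        rcases hd c (p2 c h4) hcS with h | h
        · exact hca h
        · exact hcb h
      refine (hr.close hadj h3).mono ?_ ?_
      · rintro v (hv | hv)
        · exact Or.inr hv
        · exact Or.inl hv
      · rintro e (he | he)
        · exact Or.inl (Or.inr he)
        · by_cases hne : e = s(b, c)
          · right
            rw [hne, Sym2.eq_swap]
            rfl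
          · exact Or.inl (Or.inl ⟨he, hne⟩)

/-- opening a cycle at one of its edges -/
theorem CycIn.open_edge {S : Set V} {E : Set (Sym2 V)} (h : CycIn H S E) {a b : V}
    (hab : s(a, b) ∈ E) :
    ∃ p : H.Walk a b, p.IsPath ∧ (∀ v ∈ p.support, v ∈ S) ∧
      (∀ e ∈ E, e ≠ s(a, b) → e ∈ p.edges) ∧ s(a, b) ∉ p.edges := by
  obtain ⟨u, p, p1, p2, p3⟩ := h
  have hab' := p3 _ hab
  have ha : a ∈ p.support := p.fst_mem_support_of_mem_edges hab'
  -- start the cycle at `a`
  obtain ⟨r, r1, r2, r3⟩ : ∃ r : H.Walk a a, r.IsCycle ∧ (∀ v ∈ r.support, v ∈ S) ∧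
      (∀ e, e ∈ p.edges → e ∈ r.edges) := by
    refine ⟨p.rotate a ha, p1.rotate ha, ?_, ?_⟩
    · intro v hv
      exact p2 v ((Walk.mem_support_rotate_iff p a ha).1 hv)
    · intro e he
      exact (p.rotate_edges a ha).mem_iff.2 he
  cases r with
  | nil => exact absurd r1 (by simp)
  | @cons _ c _ hadj q =>
    rw [Walk.cons_isCycle_iff] at r1
    obtain ⟨q1, q2⟩ := r1
    have hall : ∀ e ∈ E, e = s(a, c) ∨ e ∈ q.edges := by
      intro e he
      have := r3 e (p3 e he)
      rwa [Walk.edges_cons, List.mem_cons] at this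
    have hqS : ∀ v ∈ q.support, v ∈ S := fun v hv => r2 v (by
      rw [Walk.support_cons]; exact List.mem_cons_of_mem _ hv)
    by_cases hcb : c = b
    · subst hcb
      refine ⟨q.reverse, q1.reverse, ?_, ?_, ?_⟩
      · intro v hv; exact hqS v (by simpa using hv)
      · intro e he hne
        rw [Walk.edges_reverse, List.mem_reverse]
        exact (hall e he).resolve_left hne
      · rw [Walk.edges_reverse, List.mem_reverse]
        exact q2
    · have h1 : s(a, b) ∈ q.edges := by
        rcases hall _ hab with h | h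
        · exfalso
          rw [Sym2.eq_iff] at h
          rcases h with ⟨-, h⟩ | ⟨h, h'⟩
          · exact hcb h.symm
          · exact hadj.ne h
        · exact h
      have hbadj : H.Adj a b := q.adj_of_mem_edges h1
      rcases edge_split q h1 hbadj with ⟨A, B, hAB⟩ | ⟨A, B, hAB⟩
      · exfalso
        rw [hAB] at q1
        have := q1.of_append_right
        rw [Walk.cons_isPath_iff] at this
        exact this.2 B.end_mem_support
      · have hB : B = .nil := by
          rw [hAB] at q1
          have := (q1.of_append_right).of_cons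
          exact (Walk.isPath_iff_nil.1 this).eq_nil
        subst hB
        rw [hAB] at q1 hqS
        have hA := q1.of_append_left
        have haA : a ∉ A.support := by
          intro hh
          by_cases hab2 : a = b
          · exact hbadj.ne hab2
          · exact q1.ne_of_mem_support_of_append hab2 hh
              ((Walk.support_cons _ _) ▸ List.mem_cons_of_mem _ (Walk.start_mem_support _)) rfl
        refine ⟨.cons hadj A, hA.cons haA, ?_, ?_, ?_⟩
        · intro v hv
          rw [Walk.support_cons, List.mem_cons] at hv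
          rcases hv with hv | hv
          · rw [hv]; exact r2 a (by simp)
          · exact hqS v ((Walk.mem_support_append_iff _ _).2 (Or.inl hv))
        · intro e he hne
          rw [Walk.edges_cons, List.mem_cons]
          rcases hall e he with h | h
          · exact Or.inl h
          · right
            rw [hAB, Walk.edges_append, List.mem_append] at h
            rcases h with h | h
            · exact h
            · exfalso
              simp at h
              rw [Sym2.eq_swap] at h
              exact hne h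
        · intro hh
          rw [Walk.edges_cons, List.mem_cons] at hh
          rcases hh with hh | hh
          · rw [Sym2.eq_iff] at hh
            rcases hh with ⟨-, h⟩ | ⟨h, -⟩
            · exact hcb h.symm
            · exact hadj.ne h
          · exact haA (A.fst_mem_support_of_mem_edges hh)

/-- opening a cycle of `G + ab` -/
theorem CycIn.open_virtual {S : Set V} {E : Set (Sym2 V)} {a b : V}
    (hH : ∀ e ∈ H.edgeSet, e ∈ G.edgeSet ∨ e = s(a, b)) (h : CycIn H S E)
    (hab : s(a, b) ∈ E) : PathIn G a b S (E \ {s(a, b)}) := by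
  obtain ⟨p, p1, p2, p3, p4⟩ := h.open_edge hab
  refine PathIn.transfer ⟨p, p1, p2, fun e he => p3 e he.1 he.2, ?_⟩
  intro e he
  rcases hH e (p.edges_subset_edgeSet he) with h | h
  · exact h
  · exact absurd (h ▸ he) p4

/-- a virtual edge of a cycle is replaced by a path -/
theorem CycIn.expand {S S' : Set V} {E E' : Set (Sym2 V)} {a b : V}
    (hH : ∀ e ∈ H.edgeSet, e ∈ G.edgeSet ∨ e = s(a, b)) (h : CycIn H S E)
    (hab : s(a, b) ∈ E) (hne : a ≠ b) (h' : PathIn G a b S' E')
    (hd : ∀ v ∈ S, v ∈ S' → v = a ∨ v = b) (h2 : ∃ e ∈ E, e ≠ s(a, b)) :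
    CycIn G (S ∪ S') ((E \ {s(a, b)}) ∪ E') := by
  have h1 := h.open_virtual hH hab
  obtain ⟨e, he, hee⟩ := h2
  exact h1.close₂ h'.reverse hne hd ⟨e, ⟨he, hee⟩, hee⟩

end Pool.Agent.LWF
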